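import Pool.Agent.Helper61.Tri.All
import Pool.Agent.Helper61.Tri.Large
import Pool.Agent.Helper61.Tri.K4Count

set_option autoImplicit false

namespace Pool.Agent.Results.MP_5b3c48_co.FullAnswer

open SimpleGraph Pool.Agent.Helper61.Tri

/-- `t_k = ⌊(k-1)/2⌋ + 1`. -/
def tk (k : ℕ) : ℕ := (k - 1) / 2 + 1

/-- `G` is isomorphic to `H⁺(n,2,t)` with the extra edge `xy` in the part of size
`⌊(n-t+1)/2⌋` of `T_2(n-t+1)`. -/
def IsHPlusSmall (n t : ℕ) (G : SimpleGraph (Fin n)) : Prop :=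
  ∃ x y : Fin ((n + 1 - t) / 2), x ≠ y ∧
    Nonempty (G ≃g (HGraph n t ⊔ edge (Sum.inr (Sum.inl x)) (Sum.inr (Sum.inl y))))

/-- `G` is isomorphic to `H⁺(n,2,t)` with the extra edge `xy` in the part of size
`⌈(n-t+1)/2⌉` of `T_2(n-t+1)`. -/
def IsHPlusLarge (n t : ℕ) (G : SimpleGraph (Fin n)) : Prop :=
  ∃ x y : Fin ((n + 1 - t + 1) / 2), x ≠ y ∧
    Nonempty (G ≃g (HGraph n t ⊔ edge (Sum.inr (Sum.inr x)) (Sum.inr (Sum.inr y))))

/-- the graph of Q1: `H(n,2,t_k)` for `k` odd, `H⁺(n,2,t_k)` for `k` even (with the extra edge in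
the part of size `⌊(n-t_k+1)/2⌋`) -/
def Indicated (k n : ℕ) (G : SimpleGraph (Fin n)) : Prop :=
  (Odd k ∧ Nonempty (G ≃g HGraph n (tk k))) ∨ (Even k ∧ IsHPlusSmall n (tk k) G)

/-- **Answer to Q1**: yes for every `k ≥ 5`, no for `k = 4`. -/
theorem result :
    (∀ k : ℕ, 5 ≤ k → ∃ n0 : ℕ, ∀ n : ℕ, n0 ≤ n →
      (∃ G : SimpleGraph (Fin n), Indicated k n G) ∧
      (∀ G : SimpleGraph (Fin n), Indicated k n G →
        IsUniqueExtremal n (blowup (cycleGraph k)) G ∧
        IsUniqueExtremal n (blowup (pathGraph (k + 1))) G) ∧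
      (Even k → Odd (n + 1 - tk k) → ∀ G : SimpleGraph (Fin n), IsHPlusLarge n (tk k) G →
        ∃ G' : SimpleGraph (Fin n), Indicated k n G' ∧ tri G < tri G')) ∧
    (∀ n : ℕ, 13 ≤ n → ∃ G' : SimpleGraph (Fin n), (blowup (cycleGraph 4)).Free G' ∧
      (n - 1) ^ 2 / 4 + n - 5 ≤ tri G' ∧
      ∀ G : SimpleGraph (Fin n), (IsHPlusSmall n 2 G ∨ IsHPlusLarge n 2 G) →
        tri G < tri G') := by
  constructor
  · intro k hk
    obtain ⟨n0, hn0⟩ := all k hk
    set s := (k - 1) / 2 with hs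
    have hs2 : 2 ≤ s := by omega
    have htk : tk k = s + 1 := rfl
    refine ⟨n0 + s + 4, fun n hn => ?_⟩
    have hex : ∃ G : SimpleGraph (Fin n), Indicated k n G := by
      have hcard : Fintype.card (Fin n) = Fintype.card (Fin (tk k - 1) ⊕
          (Fin ((n + 1 - tk k) / 2) ⊕ Fin ((n + 1 - tk k + 1) / 2))) := by
        rw [htk]
        simp only [Fintype.card_fin, Fintype.card_sum]
        omega
      let e := Fintype.equivOfCardEq hcard
      rcases Nat.even_or_odd k with he | ho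
      · let x : Fin ((n + 1 - tk k) / 2) := ⟨0, by rw [htk]; omega⟩
        let y : Fin ((n + 1 - tk k) / 2) := ⟨1, by rw [htk]; omega⟩
        have hxy : x ≠ y := by simp [x, y]
        exact ⟨(HGraph n (tk k) ⊔ edge (Sum.inr (Sum.inl x)) (Sum.inr (Sum.inl y))).comap e,
          Or.inr ⟨he, x, y, hxy, ⟨SimpleGraph.Iso.comap e _⟩⟩⟩
      · exact ⟨(HGraph n (tk k)).comap e, Or.inl ⟨ho, ⟨SimpleGraph.Iso.comap e _⟩⟩⟩
    refine ⟨hex, ?_, ?_⟩
    · intro G hG
      exact hn0 n (by omega) G hG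
    · intro he hodd G hG
      obtain ⟨G', hG'⟩ := hex
      refine ⟨G', hG', ?_⟩
      rcases hG' with ⟨ho, -⟩ | ⟨-, hG'⟩
      · exact absurd ho (Nat.not_odd_iff_even.2 he)
      obtain ⟨x, y, hxy, hφ⟩ := hG
      have h1 := large_str s n G (by omega) x y hxy hφ
      have h2 : StrEven G' s ((n - s) / 2) ((n - s + 1) / 2) :=
        isostr.2.2.2 s n G' (by omega) hG'
      have t1 := (Pool.Agent.Helper90.Tri.tristr (Fin n) G s _ _ hs2).2.2 h1
      have t2 := (Pool.Agent.Helper90.Tri.tristr (Fin n) G' s _ _ hs2).2.2 h2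
      have u1 := (Pool.Agent.Helper90.Tri.tristr (Fin n) G s 0 0 hs2).1
      have u2 := (Pool.Agent.Helper90.Tri.tristr (Fin n) G' s 0 0 hs2).1
      have hodd' : Odd (n - s) := by
        have : n + 1 - tk k = n - s := by rw [htk]; omega
        rwa [this] at hodd
      obtain ⟨q, hq⟩ := hodd'
      have e1 : (n - s) / 2 = q := by omega
      have e2 : (n - s + 1) / 2 = q + 1 := by omega
      rw [e1, e2] at t1 t2
      have e3 : (q + 1) * q = q * (q + 1) := Nat.mul_comm _ _
      have e4 : q + 1 + q = q + (q + 1) := Nat.add_comm _ _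
      rw [e3, e4] at t1
      omega
  · intro n hn
    set a := (n - 1) / 2 with ha
    set b := (n - 1 + 1) / 2 with hb
    have ha6 : 6 ≤ a := by omega
    have hb6 : 6 ≤ b := by omega
    have hab : a + b = n - 1 := by omega
    have hba : b = a ∨ b = a + 1 := by omega
    have hsq : a * b = (n - 1) ^ 2 / 4 := by
      have h1 : (n - 1) ^ 2 = (a + b) ^ 2 := by rw [hab]
      rw [h1]
      rcases hba with h | h
      · rw [h]
        have : (a + a) ^ 2 = 4 * (a * a) := by ring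
        rw [this, Nat.mul_div_cancel_left _ (by norm_num)]
      · rw [h]
        have : (a + (a + 1)) ^ 2 = 1 + 4 * (a * (a + 1)) := by ring
        rw [this, Nat.add_mul_div_left _ _ (by norm_num)]
        simp
    let i0 : Fin a := ⟨0, by omega⟩
    let i1 : Fin a := ⟨1, by omega⟩
    have hi : i0 ≠ i1 := by simp [i0, i1]
    let j0 : Fin b := ⟨0, by omega⟩
    let j1 : Fin b := ⟨1, by omega⟩
    have hj : j0 ≠ j1 := by simp [j0, j1]
    have hcard : Fintype.card (Fin n) = Fintype.card (Fin 1 ⊕ (Fin a ⊕ Fin b)) := by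
      simp; omega
    let e := Fintype.equivOfCardEq hcard
    let K := joinG (completeGraph (Fin 1)) (Hc i0 i1 j0 j1)
    let G' : SimpleGraph (Fin n) := K.comap e
    have eG' : G' ≃g K := SimpleGraph.Iso.comap e _
    have t1 : a * b + a + b ≤ tri G' + 4 := by
      have := tri_Hc (α := Fin a) (β := Fin b) hi hj
      rw [Fintype.card_fin, Fintype.card_fin] at this
      rw [K4.tri_congr eG']
      exact this
    refine ⟨G', (free_congr_right eG').mpr (join_free _ Hc_bowtie), by omega, ?_⟩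
    intro G hG
    have e1 : (n + 1 - 2) / 2 = a := by omega
    have e2 : (n + 1 - 2 + 1) / 2 = b := by omega
    have tG : tri G ≤ a * b + 1 + b := by
      unfold IsHPlusSmall IsHPlusLarge HGraph at hG
      rw [e1, e2] at hG
      rcases hG with ⟨x, y, hxy, ⟨φ⟩⟩ | ⟨x, y, hxy, ⟨φ⟩⟩
      · have h1 : tri G = tri (K4.Kg (Fin a) (Fin b) x y) := K4.tri_congr φ
        rw [h1, K4.tri_Kg hxy]
        simp only [Fintype.card_fin]
        omega
      · have h1 : tri G = tri (K4.Kg (Fin b) (Fin a) x y) :=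
          K4.tri_congr (φ.trans (K4.swapIso (Fin a) (Fin b) x y))
        rw [h1, K4.tri_Kg hxy]
        simp only [Fintype.card_fin]
        have : b * a = a * b := Nat.mul_comm _ _
        omega
    omega

end Pool.Agent.Results.MP_5b3c48_co.FullAnswer
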