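import Mathlib.Combinatorics.SimpleGraph.Copy
import Mathlib.Combinatorics.SimpleGraph.CycleGraph
import Mathlib.Combinatorics.SimpleGraph.Hasse
import Mathlib.Combinatorics.SimpleGraph.Clique
import Mathlib.Combinatorics.SimpleGraph.Operations
import Mathlib.Tactic

namespace Pool.Agent.Results.MP_5b3c48_co.UniquenessFailsK4

open SimpleGraph

/-- The edge blow-up `H^3` of a graph `H`: to the vertices of `H` (kept as `Sum.inl v`) we add one
new vertex `Sum.inr e` for every edge `e` of `H`, joined exactly to the two ends of `e`; thus every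
edge `uv` of `H` becomes a triangle `u v w_{uv}` with pairwise distinct new vertices. -/
def blowup {V : Type*} (H : SimpleGraph V) : SimpleGraph (V ⊕ H.edgeSet) where
  Adj
    | Sum.inl u, Sum.inl v => H.Adj u v
    | Sum.inl u, Sum.inr e => u ∈ e.1
    | Sum.inr e, Sum.inl u => u ∈ e.1
    | Sum.inr _, Sum.inr _ => False
  symm := ⟨by
    rintro (u | e) (v | f) h
    · exact H.adj_symm h
    · exact h
    · exact h
    · exact h⟩
  loopless := ⟨by
    rintro (u | e) h
    · exact H.irrefl h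
    · exact h⟩

/-- The join `G + H`: disjoint union together with all edges between the two vertex sets. -/
def joinG {V W : Type*} (G : SimpleGraph V) (H : SimpleGraph W) : SimpleGraph (V ⊕ W) where
  Adj
    | Sum.inl u, Sum.inl v => G.Adj u v
    | Sum.inr u, Sum.inr v => H.Adj u v
    | Sum.inl _, Sum.inr _ => True
    | Sum.inr _, Sum.inl _ => True
  symm := ⟨by
    rintro (u | e) (v | f) h
    · exact G.adj_symm h
    · exact h
    · exact h
    · exact H.adj_symm h⟩
  loopless := ⟨by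
    rintro (u | e) h
    · exact G.irrefl h
    · exact H.irrefl h⟩

/-- `H(n,2,t) = K_{t-1} + T_2(n-t+1)`, where `T_2(m) = K_{⌊m/2⌋,⌈m/2⌉}`. -/
abbrev HGraph (n t : ℕ) :
    SimpleGraph (Fin (t - 1) ⊕ (Fin ((n + 1 - t) / 2) ⊕ Fin ((n + 1 - t + 1) / 2))) :=
  joinG (completeGraph (Fin (t - 1)))
    (completeBipartiteGraph (Fin ((n + 1 - t) / 2)) (Fin ((n + 1 - t + 1) / 2)))

/-- `G` is (isomorphic to) a graph obtained from `H(n,2,t)` by adding one edge `xy` inside one of
the two parts of `T_2(n-t+1)`. -/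
def IsHPlus (n t : ℕ) (G : SimpleGraph (Fin n)) : Prop :=
  ∃ x y : Fin ((n + 1 - t) / 2) ⊕ Fin ((n + 1 - t + 1) / 2), x ≠ y ∧ x.isLeft = y.isLeft ∧
    Nonempty (G ≃g (HGraph n t ⊔ edge (Sum.inr x) (Sum.inr y)))

/-- The number of triangles of a finite graph. -/
noncomputable def tri {V : Type*} [Fintype V] (G : SimpleGraph V) : ℕ :=
  Nat.card {s : Finset V // G.IsNClique 3 s}

/-- `G` is the unique extremal graph for `ex(n, K_3, F)`: it contains no copy of `F`, every
`n`-vertex graph `G'` without a copy of `F` has at most as many triangles as `G`, and equality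
holds only if `G'` is isomorphic to `G`. -/
def IsUniqueExtremal {W : Type*} (n : ℕ) (F : SimpleGraph W) (G : SimpleGraph (Fin n)) : Prop :=
  F.Free G ∧ ∀ G' : SimpleGraph (Fin n), F.Free G' →
    tri G' ≤ tri G ∧ (tri G' = tri G → Nonempty (G' ≃g G))

/-! ### F-freeness -/

/-- a graph in which all triangles go through the vertex `u` or the pair `x, y` contains no
four triangles that pairwise share at most one vertex, with every vertex in at most two. -/
lemma free_of {W V : Type*} [DecidableEq W] [DecidableEq V] (F : SimpleGraph W)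
    (T : Fin 4 → Finset W)
    (hT : ∀ i, F.IsNClique 3 (T i)) (h1 : ∀ i j, i ≠ j → (T i ∩ T j).card ≤ 1)
    (h2 : ∀ w, (Finset.univ.filter (fun i => w ∈ T i)).card ≤ 2)
    (K : SimpleGraph V) (u x y : V) (hxy : x ≠ y)
    (hK : ∀ S : Finset V, K.IsNClique 3 S → u ∈ S ∨ (x ∈ S ∧ y ∈ S)) : F.Free K := by
  rintro ⟨f⟩
  have hinj : Function.Injective f := f.injective
  -- images
  have hclique : ∀ i, K.IsNClique 3 ((T i).image f) := by
    intro i
    refine ⟨?_, ?_⟩
    · intro a ha b hb hab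
      simp only [Finset.coe_image, Set.mem_image, Finset.mem_coe] at ha hb
      obtain ⟨a', ha', rfl⟩ := ha
      obtain ⟨b', hb', rfl⟩ := hb
      have hne : a' ≠ b' := fun h => hab (by rw [h])
      exact f.toHom.map_adj ((hT i).isClique ha' hb' hne)
    · rw [Finset.card_image_of_injective _ hinj, (hT i).card_eq]
  have hIu : (Finset.univ.filter (fun i => u ∈ (T i).image f)).card ≤ 2 := by
    by_cases hu : ∃ w, f w = u
    · obtain ⟨w, rfl⟩ := hu
      have : (Finset.univ.filter (fun i => f w ∈ (T i).image f))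
          = (Finset.univ.filter (fun i => w ∈ T i)) := by
        ext i
        simp only [Finset.mem_filter, Finset.mem_univ, true_and, Finset.mem_image]
        constructor
        · rintro ⟨a, ha, hfa⟩
          rwa [← hinj hfa]
        · intro h
          exact ⟨w, h, rfl⟩
      rw [this]
      exact h2 w
    · have : (Finset.univ.filter (fun i => u ∈ (T i).image f)) = ∅ := by
        ext i
        simp only [Finset.mem_filter, Finset.mem_univ, true_and, Finset.mem_image,
          Finset.notMem_empty, iff_false]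
        rintro ⟨a, _, hfa⟩
        exact hu ⟨a, hfa⟩
      rw [this]
      simp
  have hcompl : 1 < (Finset.univ.filter (fun i => ¬ u ∈ (T i).image f)).card := by
    have := Finset.card_filter_add_card_filter_not (s := (Finset.univ : Finset (Fin 4)))
      (fun i => u ∈ (T i).image f)
    simp only [Finset.card_univ, Fintype.card_fin] at this
    omega
  obtain ⟨i, hi, j, hj, hij⟩ := Finset.one_lt_card.mp hcompl
  simp only [Finset.mem_filter, Finset.mem_univ, true_and] at hi hj
  have hi' := (hK _ (hclique i)).resolve_left hi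
  have hj' := (hK _ (hclique j)).resolve_left hj
  obtain ⟨hx1, hy1⟩ := hi'
  obtain ⟨hx2, hy2⟩ := hj'
  simp only [Finset.mem_image] at hx1 hy1 hx2 hy2
  obtain ⟨a1, ha1, hfa1⟩ := hx1
  obtain ⟨b1, hb1, hfb1⟩ := hy1
  obtain ⟨a2, ha2, hfa2⟩ := hx2
  obtain ⟨b2, hb2, hfb2⟩ := hy2
  have e1 : a1 = a2 := hinj (hfa1.trans hfa2.symm)
  have e2 : b1 = b2 := hinj (hfb1.trans hfb2.symm)
  subst e1; subst e2
  have hne : a1 ≠ b1 := by
    rintro rfl
    exact hxy (hfa1.symm.trans hfb1)
  have h2' : 1 < (T i ∩ T j).card :=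
    Finset.one_lt_card.mpr ⟨a1, Finset.mem_inter.mpr ⟨ha1, ha2⟩, b1,
      Finset.mem_inter.mpr ⟨hb1, hb2⟩, hne⟩
  exact absurd (h1 i j hij) (by omega)

/-- A blow-up of a graph with four edges and maximum degree at most two is not contained in a
graph all of whose triangles go through the vertex `u` or the pair `x, y`. -/
lemma blowup_free {V₀ V : Type*} (H : SimpleGraph V₀) (e : Fin 4 → H.edgeSet)
    (he : Function.Injective e) [DecidableEq V₀]
    (h2 : ∀ v, (Finset.univ.filter (fun i => v ∈ (e i).1)).card ≤ 2)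
    (K : SimpleGraph V) (u x y : V) (hxy : x ≠ y)
    (hK : ∀ S : Finset V, K.IsNClique 3 S → u ∈ S ∨ (x ∈ S ∧ y ∈ S)) : (blowup H).Free K := by
  classical
  let T : Fin 4 → Finset (V₀ ⊕ H.edgeSet) := fun i =>
    insert (Sum.inr (e i)) ((e i).1.toFinset.image Sum.inl)
  have memT_inl : ∀ i v, Sum.inl v ∈ T i ↔ v ∈ (e i).1 := by
    intro i v
    simp [T]
  have memT_inr : ∀ i f, Sum.inr f ∈ T i ↔ f = e i := by
    intro i f
    simp [T]
  refine free_of (blowup H) T ?_ ?_ ?_ K u x y hxy hK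
  · intro i
    obtain ⟨f, hf⟩ : ∃ f, f = e i := ⟨_, rfl⟩
    obtain ⟨⟨⟨a, b⟩⟩, hab⟩ := f
    have hab' : H.Adj a b := hab
    have hT : T i = {Sum.inl a, Sum.inl b, Sum.inr (e i)} := by
      ext w
      rcases w with v | g
      · rw [memT_inl, ← hf]
        simp
      · rw [memT_inr]
        simp
    rw [hT]
    rw [is3Clique_triple_iff]
    refine ⟨hab', ?_, ?_⟩
    · change a ∈ (e i).1
      rw [← hf]
      simp
    · change b ∈ (e i).1
      rw [← hf]
      simp
  · intro i j hij
    rw [Finset.card_le_one]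
    rintro (a | f) ha (b | g) hb
    · simp only [Finset.mem_inter, memT_inl] at ha hb
      by_contra hne
      have hne' : a ≠ b := fun h => hne (by rw [h])
      have h1 := (Sym2.mem_and_mem_iff hne').mp ⟨ha.1, hb.1⟩
      have h2 := (Sym2.mem_and_mem_iff hne').mp ⟨ha.2, hb.2⟩
      exact hij (he (Subtype.ext (h1.trans h2.symm)))
    · simp only [Finset.mem_inter, memT_inr] at hb
      exact absurd (he (hb.1.symm.trans hb.2)) hij
    · simp only [Finset.mem_inter, memT_inr] at ha
      exact absurd (he (ha.1.symm.trans ha.2)) hij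
    · simp only [Finset.mem_inter, memT_inr] at ha
      exact absurd (he (ha.1.symm.trans ha.2)) hij
  · rintro (v | f)
    · simp only [memT_inl]
      exact h2 v
    · simp only [memT_inr]
      refine le_trans (Finset.card_le_one.mpr ?_) (by norm_num)
      intro i hi j hj
      simp only [Finset.mem_filter, Finset.mem_univ, true_and] at hi hj
      exact he (hi.symm.trans hj)

/-- edges of the 4-cycle -/
def eC (i : Fin 4) : (cycleGraph 4).edgeSet := ⟨s(i, i + 1), by
  rw [mem_edgeSet]; revert i; decide⟩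

/-- edges of the path with 4 edges -/
def eP (i : Fin 4) : (pathGraph 5).edgeSet := ⟨s(i.castSucc, i.succ), by
  rw [mem_edgeSet, pathGraph_adj]; revert i; decide⟩

lemma eC_inj : Function.Injective eC := by
  intro i j h
  have h' : s(i, i + 1) = s(j, j + 1) := congrArg Subtype.val h
  revert i j
  decide

lemma eP_inj : Function.Injective eP := by
  intro i j h
  have h' : s(i.castSucc, i.succ) = s(j.castSucc, j.succ) := congrArg Subtype.val h
  revert i j
  decide

lemma eC_deg (v : Fin 4) : (Finset.univ.filter (fun i => v ∈ (eC i).1)).card ≤ 2 := by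
  revert v
  decide

lemma eP_deg (v : Fin 5) : (Finset.univ.filter (fun i => v ∈ (eP i).1)).card ≤ 2 := by
  revert v
  decide

/-! ### The concrete graphs -/

/-- `K_1 + (K_{α,β} plus the edge ij inside the part α)`. -/
abbrev Kg (α β : Type) (i j : α) : SimpleGraph (Fin 1 ⊕ (α ⊕ β)) :=
  joinG (completeGraph (Fin 1)) (completeBipartiteGraph α β) ⊔
    edge (Sum.inr (Sum.inl i)) (Sum.inr (Sum.inl j))

section Kg

variable {α β : Type} {i j : α}

@[simp] lemma Kg_ll (p q : Fin 1) : (Kg α β i j).Adj (Sum.inl p) (Sum.inl q) ↔ False := by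
  simp [Kg, joinG, Subsingleton.elim p q]

@[simp] lemma Kg_lr (p : Fin 1) (q : α ⊕ β) :
    (Kg α β i j).Adj (Sum.inl p) (Sum.inr q) ↔ True := by
  simp [Kg, joinG]

@[simp] lemma Kg_rl (p : Fin 1) (q : α ⊕ β) :
    (Kg α β i j).Adj (Sum.inr q) (Sum.inl p) ↔ True := by
  simp [Kg, joinG]

@[simp] lemma Kg_aa (p q : α) : (Kg α β i j).Adj (Sum.inr (Sum.inl p)) (Sum.inr (Sum.inl q)) ↔
    ((p = i ∧ q = j) ∨ (p = j ∧ q = i)) ∧ p ≠ q := by
  simp [Kg, joinG, edge_adj]

@[simp] lemma Kg_ab (p : α) (q : β) :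
    (Kg α β i j).Adj (Sum.inr (Sum.inl p)) (Sum.inr (Sum.inr q)) ↔ True := by
  simp [Kg, joinG]

@[simp] lemma Kg_ba (p : α) (q : β) :
    (Kg α β i j).Adj (Sum.inr (Sum.inr q)) (Sum.inr (Sum.inl p)) ↔ True := by
  simp [Kg, joinG]

@[simp] lemma Kg_bb (p q : β) :
    (Kg α β i j).Adj (Sum.inr (Sum.inr p)) (Sum.inr (Sum.inr q)) ↔ False := by
  simp [Kg, joinG, edge_adj]

/-- description of the triangles -/
lemma Kg_clique [DecidableEq α] [DecidableEq β] (hij : i ≠ j)
    (S : Finset (Fin 1 ⊕ (α ⊕ β))) :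
    (Kg α β i j).IsNClique 3 S ↔
      (∃ p q, S = {Sum.inl 0, Sum.inr (Sum.inl p), Sum.inr (Sum.inr q)}) ∨
      S = {Sum.inl 0, Sum.inr (Sum.inl i), Sum.inr (Sum.inl j)} ∨
      (∃ q, S = {Sum.inr (Sum.inl i), Sum.inr (Sum.inl j), Sum.inr (Sum.inr q)}) := by
  constructor
  · intro h
    rw [is3Clique_iff] at h
    obtain ⟨a, b, c, hab, hac, hbc, rfl⟩ := h
    have h0 : ∀ x : Fin 1, x = 0 := fun x => Subsingleton.elim x 0
    rcases a with a | a | a <;> rcases b with b | b | b <;> rcases c with c | c | c <;>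
      simp only [Kg_ll, Kg_lr, Kg_rl, Kg_aa, Kg_ab, Kg_ba, Kg_bb] at hab hac hbc
    -- remaining cases
    all_goals try rw [h0 a]
    all_goals try rw [h0 b]
    all_goals try rw [h0 c]
    · -- U A A
      right; left
      rcases hbc.1 with ⟨rfl, rfl⟩ | ⟨rfl, rfl⟩
      · rfl
      · ext w; simp; tauto
    · left; exact ⟨b, c, rfl⟩
    · left; refine ⟨c, b, ?_⟩; ext w; simp; tauto
    · right; left
      rcases hac.1 with ⟨rfl, rfl⟩ | ⟨rfl, rfl⟩
      · ext w; simp; tauto
      · ext w; simp; tauto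
    · left; refine ⟨a, c, ?_⟩; ext w; simp; tauto
    · right; left
      rcases hab.1 with ⟨rfl, rfl⟩ | ⟨rfl, rfl⟩
      · ext w; simp; tauto
      · ext w; simp; tauto
    · exfalso
      grind
    · right; right
      refine ⟨c, ?_⟩
      rcases hab.1 with ⟨rfl, rfl⟩ | ⟨rfl, rfl⟩
      · rfl
      · ext w; simp; tauto
    · left; refine ⟨a, b, ?_⟩; ext w; simp; tauto
    · right; right
      refine ⟨b, ?_⟩
      rcases hac.1 with ⟨rfl, rfl⟩ | ⟨rfl, rfl⟩
      · ext w; simp; tauto
      · ext w; simp; tauto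
    · left; refine ⟨c, a, ?_⟩; ext w; simp; tauto
    · left; refine ⟨b, a, ?_⟩; ext w; simp; tauto
    · right; right
      refine ⟨a, ?_⟩
      rcases hbc.1 with ⟨rfl, rfl⟩ | ⟨rfl, rfl⟩
      · ext w; simp; tauto
      · ext w; simp; tauto
  · rintro (⟨p, q, rfl⟩ | rfl | ⟨q, rfl⟩)
    · rw [is3Clique_triple_iff]
      simp only [Kg_lr, Kg_ab, and_true]
    · rw [is3Clique_triple_iff]
      exact ⟨(Kg_lr _ _).mpr trivial, (Kg_lr _ _).mpr trivial,
        (Kg_aa _ _).mpr ⟨Or.inl ⟨rfl, rfl⟩, hij⟩⟩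
    · rw [is3Clique_triple_iff]
      exact ⟨(Kg_aa _ _).mpr ⟨Or.inl ⟨rfl, rfl⟩, hij⟩, (Kg_ab _ _).mpr trivial,
        (Kg_ab _ _).mpr trivial⟩

lemma tri_Kg [Fintype α] [Fintype β] (hij : i ≠ j) :
    tri (Kg α β i j) = Fintype.card α * Fintype.card β + 1 + Fintype.card β := by
  classical
  let f1 : α × β → Finset (Fin 1 ⊕ (α ⊕ β)) :=
    fun p => {Sum.inl 0, Sum.inr (Sum.inl p.1), Sum.inr (Sum.inr p.2)}
  let f2 : β → Finset (Fin 1 ⊕ (α ⊕ β)) :=
    fun q => {Sum.inr (Sum.inl i), Sum.inr (Sum.inl j), Sum.inr (Sum.inr q)}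
  have hf1 : Function.Injective f1 := by
    rintro ⟨p, q⟩ ⟨p', q'⟩ h
    have h1 : Sum.inr (Sum.inl p) ∈ f1 (p', q') := by
      rw [← h]; simp [f1]
    have h2 : Sum.inr (Sum.inr q) ∈ f1 (p', q') := by
      rw [← h]; simp [f1]
    simp only [f1, Finset.mem_insert, Finset.mem_singleton, reduceCtorEq, false_or,
      Sum.inr.injEq, Sum.inl.injEq, or_false] at h1 h2
    rw [h1, h2]
  have hf2 : Function.Injective f2 := by
    intro q q' h
    have h2 : Sum.inr (Sum.inr q) ∈ f2 q' := by
      rw [← h]; simp [f2]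
    simpa [f2] using h2
  have key : (Finset.univ.filter (fun S => (Kg α β i j).IsNClique 3 S)) =
      (Finset.univ.image f1 ∪ {({Sum.inl 0, Sum.inr (Sum.inl i), Sum.inr (Sum.inl j)} :
        Finset (Fin 1 ⊕ (α ⊕ β)))}) ∪ Finset.univ.image f2 := by
    ext S
    simp only [Finset.mem_filter, Finset.mem_univ, true_and, Finset.mem_union, Finset.mem_image,
      Finset.mem_singleton]
    rw [Kg_clique hij]
    constructor
    · rintro (⟨p, q, rfl⟩ | rfl | ⟨q, rfl⟩)
      · left; left; exact ⟨(p, q), rfl⟩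
      · left; right; rfl
      · right; exact ⟨q, rfl⟩
    · rintro ((⟨⟨p, q⟩, rfl⟩ | rfl) | ⟨q, rfl⟩)
      · left; exact ⟨p, q, rfl⟩
      · right; left; rfl
      · right; right; exact ⟨q, rfl⟩
  have d1 : Disjoint (Finset.univ.image f1) {({Sum.inl 0, Sum.inr (Sum.inl i),
      Sum.inr (Sum.inl j)} : Finset (Fin 1 ⊕ (α ⊕ β)))} := by
    rw [Finset.disjoint_singleton_right]
    intro h
    rw [Finset.mem_image] at h
    obtain ⟨⟨p, q⟩, _, h⟩ := h
    have h2 : Sum.inr (Sum.inr q) ∈ f1 (p, q) := by simp [f1]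
    rw [h] at h2
    simp at h2
  have d2 : Disjoint (Finset.univ.image f1 ∪ {({Sum.inl 0, Sum.inr (Sum.inl i),
      Sum.inr (Sum.inl j)} : Finset (Fin 1 ⊕ (α ⊕ β)))}) (Finset.univ.image f2) := by
    rw [Finset.disjoint_left]
    intro S hS hS2
    simp only [Finset.mem_union, Finset.mem_image, Finset.mem_univ, true_and,
      Finset.mem_singleton] at hS hS2
    obtain ⟨q, rfl⟩ := hS2
    rcases hS with ⟨⟨p, r⟩, h⟩ | h
    · have h2 : Sum.inl 0 ∈ f2 q := by rw [← h]; simp [f1]
      simp [f2] at h2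
    · have h2 : Sum.inl 0 ∈ f2 q := by rw [h]; simp
      simp [f2] at h2
  rw [tri, Nat.card_eq_fintype_card, Fintype.card_subtype, key,
    Finset.card_union_of_disjoint d2, Finset.card_union_of_disjoint d1,
    Finset.card_image_of_injective _ hf1, Finset.card_image_of_injective _ hf2]
  simp

/-- every triangle of `Kg` contains the apex or the extra edge -/
lemma Kg_tri (hij : i ≠ j) (S : Finset (Fin 1 ⊕ (α ⊕ β)))
    (hS : (Kg α β i j).IsNClique 3 S) :
    Sum.inl 0 ∈ S ∨ (Sum.inr (Sum.inl i) ∈ S ∧ Sum.inr (Sum.inl j) ∈ S) := by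
  classical
  rw [Kg_clique hij] at hS
  rcases hS with ⟨p, q, rfl⟩ | rfl | ⟨q, rfl⟩
  · left; simp
  · left; simp
  · right; simp

lemma Kg_free_C (hij : i ≠ j) : (blowup (cycleGraph 4)).Free (Kg α β i j) :=
  blowup_free (cycleGraph 4) eC eC_inj eC_deg _ (Sum.inl 0) (Sum.inr (Sum.inl i))
    (Sum.inr (Sum.inl j)) (by simpa using hij) (Kg_tri hij)

lemma Kg_free_P (hij : i ≠ j) : (blowup (pathGraph 5)).Free (Kg α β i j) :=
  blowup_free (pathGraph 5) eP eP_inj eP_deg _ (Sum.inl 0) (Sum.inr (Sum.inl i))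
    (Sum.inr (Sum.inl j)) (by simpa using hij) (Kg_tri hij)

/-- in `Kg` with both parts of size `q ≥ 1` every vertex has degree at least `q + 1` -/
lemma Kg_deg_ge {q : ℕ} (hq : 1 ≤ q) (i j : Fin q) (v : Fin 1 ⊕ (Fin q ⊕ Fin q)) :
    q + 1 ≤ ((Kg (Fin q) (Fin q) i j).neighborSet v).ncard := by
  classical
  have fin : ∀ s : Set (Fin 1 ⊕ (Fin q ⊕ Fin q)), s.Finite := fun s => Set.toFinite s
  have c1 : (Set.univ : Set (Option (Fin q))).ncard = q + 1 := by
    rw [Set.ncard_univ]; simp
  rcases v with v | v | v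
  · -- apex: all of the rest
    obtain rfl : v = 0 := Subsingleton.elim _ _
    let g : Option (Fin q) → Fin 1 ⊕ (Fin q ⊕ Fin q) := fun o =>
      match o with
      | none => Sum.inr (Sum.inr ⟨0, hq⟩)
      | some p => Sum.inr (Sum.inl p)
    have hg : Function.Injective g := by
      rintro (_ | p) (_ | p') h <;> simp [g] at h ⊢
      exact h
    rw [← c1, ← Set.ncard_image_of_injective _ hg]
    refine Set.ncard_le_ncard ?_ (fin _)
    rintro _ ⟨(_ | p), _, rfl⟩
    · exact (Kg_lr (i := i) (j := j) 0 _).mpr trivial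
    · exact (Kg_lr (i := i) (j := j) 0 _).mpr trivial
  · let g : Option (Fin q) → Fin 1 ⊕ (Fin q ⊕ Fin q) := fun o =>
      match o with
      | none => Sum.inl 0
      | some p => Sum.inr (Sum.inr p)
    have hg : Function.Injective g := by
      rintro (_ | p) (_ | p') h <;> simp [g] at h ⊢
      exact h
    rw [← c1, ← Set.ncard_image_of_injective _ hg]
    refine Set.ncard_le_ncard ?_ (fin _)
    rintro _ ⟨(_ | p), _, rfl⟩
    · exact (Kg_rl (i := i) (j := j) 0 _).mpr trivial
    · exact (Kg_ab (i := i) (j := j) v p).mpr trivial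
  · let g : Option (Fin q) → Fin 1 ⊕ (Fin q ⊕ Fin q) := fun o =>
      match o with
      | none => Sum.inl 0
      | some p => Sum.inr (Sum.inl p)
    have hg : Function.Injective g := by
      rintro (_ | p) (_ | p') h <;> simp [g] at h ⊢
      exact h
    rw [← c1, ← Set.ncard_image_of_injective _ hg]
    refine Set.ncard_le_ncard ?_ (fin _)
    rintro _ ⟨(_ | p), _, rfl⟩
    · exact (Kg_rl (i := i) (j := j) 0 _).mpr trivial
    · exact (Kg_ba (i := i) (j := j) p v).mpr trivial

/-- a vertex of the larger part has small degree -/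
lemma Kg_deg_le {a b : ℕ} (i j : Fin a) (v : Fin b) :
    ((Kg (Fin a) (Fin b) i j).neighborSet (Sum.inr (Sum.inr v))).ncard ≤ a + 1 := by
  classical
  have c1 : (Set.univ : Set (Option (Fin a))).ncard = a + 1 := by
    rw [Set.ncard_univ]; simp
  let g : Option (Fin a) → Fin 1 ⊕ (Fin a ⊕ Fin b) := fun o =>
      match o with
      | none => Sum.inl 0
      | some p => Sum.inr (Sum.inl p)
  rw [← c1]
  refine le_trans (Set.ncard_le_ncard (t := g '' Set.univ) ?_ (Set.toFinite _))
    (Set.ncard_image_le (Set.toFinite _))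
  rintro (w | w | w) hw
  · obtain rfl : w = 0 := Subsingleton.elim _ _
    exact ⟨none, trivial, rfl⟩
  · exact ⟨some w, trivial, rfl⟩
  · exact absurd ((Kg_bb (i := i) (j := j) v w).mp hw) (by simp)

end Kg

/-! ### Transport along isomorphisms -/

lemma tri_congr {V W : Type*} [Fintype V] [Fintype W] {G : SimpleGraph V} {G' : SimpleGraph W}
    (e : G ≃g G') : tri G = tri G' := by
  classical
  refine Nat.card_congr (Equiv.subtypeEquiv (Equiv.finsetCongr e.toEquiv) ?_)
  intro s
  rw [Equiv.finsetCongr_apply]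
  constructor
  · intro h
    refine ⟨?_, by rw [Finset.card_map]; exact h.card_eq⟩
    intro a ha b hb hab
    rw [Finset.mem_coe, Finset.mem_map] at ha hb
    obtain ⟨a', ha', rfl⟩ := ha
    obtain ⟨b', hb', rfl⟩ := hb
    have hne : a' ≠ b' := fun hh => hab (by rw [hh])
    exact e.map_adj_iff.mpr (h.isClique ha' hb' hne)
  · intro h
    refine ⟨?_, by have := h.card_eq; rwa [Finset.card_map] at this⟩
    intro a ha b hb hab
    have ha' : e a ∈ s.map e.toEquiv.toEmbedding := Finset.mem_map.mpr ⟨a, ha, rfl⟩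
    have hb' : e b ∈ s.map e.toEquiv.toEmbedding := Finset.mem_map.mpr ⟨b, hb, rfl⟩
    exact e.map_adj_iff.mp (h.isClique ha' hb' (fun hh => hab (e.injective hh)))

lemma ncard_neighborSet_congr {V W : Type*} {G : SimpleGraph V} {G' : SimpleGraph W}
    (e : G ≃g G') (v : V) : (G'.neighborSet (e v)).ncard = (G.neighborSet v).ncard := by
  have : G'.neighborSet (e v) = e '' G.neighborSet v := by
    ext w
    simp only [mem_neighborSet, Set.mem_image]
    constructor
    · intro h
      refine ⟨e.symm w, ?_, by simp⟩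
      rw [← e.map_adj_iff]
      simpa using h
    · rintro ⟨x, hx, rfl⟩
      exact e.map_adj_iff.mpr hx
  rw [this, Set.ncard_image_of_injective _ e.injective]

/-- swapping the two parts -/
def swapIso (α β : Type) (i j : β) :
    (joinG (completeGraph (Fin 1)) (completeBipartiteGraph α β) ⊔
      edge (Sum.inr (Sum.inr i)) (Sum.inr (Sum.inr j))) ≃g Kg β α i j where
  toEquiv := Equiv.sumCongr (Equiv.refl _) (Equiv.sumComm α β)
  map_rel_iff' := by
    rintro (a | a | a) (b | b | b) <;> simp [Kg, joinG, edge_adj]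

/-- **Main statement.** For every odd `n ≥ 7`, no graph `G` obtained from
`H(n,2,2) = K_1 + T_2(n-1)` by adding an edge inside a part of `T_2(n-1)` is the unique extremal
graph for `ex(n,K_3,C_4^3)`, nor for `ex(n,K_3,P_4^3)`; here `t_4 = ⌊3/2⌋+1 = 2`. -/
theorem result :
    ∀ n : ℕ, Odd n → 7 ≤ n → ∀ G : SimpleGraph (Fin n), IsHPlus n 2 G →
      ¬ IsUniqueExtremal n (blowup (cycleGraph 4)) G ∧
      ¬ IsUniqueExtremal n (blowup (pathGraph 5)) G := by
  intro n hodd hn G hG
  obtain ⟨q, rfl⟩ := hodd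
  have hq : 3 ≤ q := by omega
  -- the competitor
  have hcard : Fintype.card (Fin (2 * q + 1)) =
      Fintype.card (Fin 1 ⊕ (Fin (q - 1) ⊕ Fin (q + 1))) := by
    simp; omega
  let e := Fintype.equivOfCardEq hcard
  let i0 : Fin (q - 1) := ⟨0, by omega⟩
  let i1 : Fin (q - 1) := ⟨1, by omega⟩
  have hi : i0 ≠ i1 := by simp [i0, i1]
  let G' : SimpleGraph (Fin (2 * q + 1)) := (Kg (Fin (q - 1)) (Fin (q + 1)) i0 i1).comap e
  have eG' : G' ≃g Kg (Fin (q - 1)) (Fin (q + 1)) i0 i1 := SimpleGraph.Iso.comap e _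
  have tG' : tri G' = q * q + 1 + q := by
    rw [tri_congr eG', tri_Kg hi]
    simp only [Fintype.card_fin]
    obtain ⟨m, rfl⟩ : ∃ m, q = m + 1 := ⟨q - 1, by omega⟩
    simp only [Nat.add_sub_cancel]
    ring
  have fC : (blowup (cycleGraph 4)).Free G' := (free_congr_right eG').mpr (Kg_free_C hi)
  have fP : (blowup (pathGraph 5)).Free G' := (free_congr_right eG').mpr (Kg_free_P hi)
  -- the graph `G` is isomorphic to `Kg (Fin q) (Fin q)`
  have e1 : (2 * q + 1 + 1 - 2) / 2 = q := by omega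
  have e2 : (2 * q + 1 + 1 - 2 + 1) / 2 = q := by omega
  have hGK : ∃ i j : Fin q, i ≠ j ∧ Nonempty (G ≃g Kg (Fin q) (Fin q) i j) := by
    unfold IsHPlus HGraph at hG
    rw [e1, e2] at hG
    obtain ⟨x, y, hxy, hside, ⟨φ⟩⟩ := hG
    rcases x with x | x <;> rcases y with y | y
    · exact ⟨x, y, fun h => hxy (by rw [h]), ⟨φ⟩⟩
    · simp at hside
    · simp at hside
    · exact ⟨x, y, fun h => hxy (by rw [h]), ⟨φ.trans (swapIso (Fin q) (Fin q) x y)⟩⟩
  obtain ⟨i, j, hij, ⟨φ⟩⟩ := hGK
  have tG : tri G = q * q + 1 + q := by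
    rw [tri_congr φ, tri_Kg hij]
    simp only [Fintype.card_fin]
  have hnoniso : ¬ Nonempty (G' ≃g G) := by
    rintro ⟨ψ⟩
    -- a vertex of degree at most q in G'
    let w : Fin 1 ⊕ (Fin (q - 1) ⊕ Fin (q + 1)) := Sum.inr (Sum.inr ⟨0, by omega⟩)
    have h1 : ((Kg (Fin (q - 1)) (Fin (q + 1)) i0 i1).neighborSet w).ncard ≤ q := by
      have := Kg_deg_le (a := q - 1) (b := q + 1) i0 i1 ⟨0, by omega⟩
      have h2 : q - 1 + 1 = q := by omega
      rw [h2] at this
      exact this
    let χ : Kg (Fin (q - 1)) (Fin (q + 1)) i0 i1 ≃g Kg (Fin q) (Fin q) i j :=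
      (eG'.symm.trans ψ).trans φ
    have h2 := Kg_deg_ge (by omega : 1 ≤ q) i j (χ w)
    rw [ncard_neighborSet_congr χ w] at h2
    omega
  constructor
  · rintro ⟨_, h⟩
    exact hnoniso ((h G' fC).2 (tG'.trans tG.symm))
  · rintro ⟨_, h⟩
    exact hnoniso ((h G' fP).2 (tG'.trans tG.symm))

end Pool.Agent.Results.MP_5b3c48_co.UniquenessFailsK4
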